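import Pool.Agent.H47.RP.Targets
import Pool.Agent.H12.RP.ST

/-!
# RST: approximate invariance under the dilations, real values
-/

set_option autoImplicit false

open MeasureTheory ProbabilityTheory Filter Topology Finset

namespace Pool.Agent.H49.RPR

open Pool.Agent.H47.RP
open Pool.Agent.H89.MT (I1 X pt z1 IsMult)
open Pool.Agent.H91.LF (Mean Dil Bdd)
open Pool.Agent.H36.RP (S past remote remote_le mulI dil Local Star T_MW QuasiGeneric)
open Pool.Agent.H12.RP (FF pt_val cl cl_eq FF_nat FF_mul dil_cont id_pt)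

/-- extension by zero -/
noncomputable def ext0 (H : ℕ) (y : ↥(Finset.Icc (-(H : ℤ)) H) → I1) : X := fun k =>
  if h : k ∈ Finset.Icc (-(H : ℤ)) H then y ⟨k, h⟩ else z1

lemma ext0_cont (H : ℕ) : Continuous (ext0 H) := by
  refine continuous_pi fun k => ?_
  unfold ext0
  by_cases h : k ∈ Finset.Icc (-(H : ℤ)) H
  · simp only [h, dite_true]
    exact continuous_apply _
  · simp only [h, dite_false]
    exact continuous_const

/-- the function of the clamped values is uniformly continuous -/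
lemma uc_cl {H : ℕ} {G : X → ℝ} (hG : Continuous G) (hloc : Local H G) (B : ℝ) (hB : 0 < B) :
    UC H (fun z => G (cl z) / B) := by
  have hg : UniformContinuous (fun y => G (ext0 H y)) :=
    CompactSpace.uniformContinuous_of_continuous (hG.comp (ext0_cont H))
  intro ε hε
  obtain ⟨δ, hδ, h1⟩ := Metric.uniformContinuous_iff.1 hg (ε * B) (by positivity)
  refine ⟨δ / 2, by positivity, fun z z' hz => ?_⟩
  have h2 : ∀ z : ℤ → ℝ, G (cl z) = G (ext0 H (fun k => cl z k)) := by
    intro z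
    refine hloc _ _ fun k hk => ?_
    have hk' : k ∈ Finset.Icc (-(H : ℤ)) H := Finset.mem_Icc.2 (abs_le.1 hk)
    unfold ext0
    rw [dif_pos hk']
  have h3 : dist (fun k : ↥(Finset.Icc (-(H : ℤ)) H) => cl z k) (fun k => cl z' k) < δ := by
    rw [dist_pi_lt_iff hδ]
    intro k
    obtain ⟨ha, hb, hc⟩ := hz k (abs_le.2 (Finset.mem_Icc.1 k.2))
    have h4 : ∀ t : ℝ, |t| ≤ 1 → ((Set.projIcc (-1 : ℝ) 1 (by norm_num) t : I1) : ℝ) = t := by
      intro t ht
      rw [Set.projIcc_of_mem _ (abs_le.1 ht)]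
    have h5 : dist (cl z k) (cl z' k) = |z k - z' k| := by
      rw [Subtype.dist_eq, Real.dist_eq]
      unfold cl
      rw [h4 _ ha, h4 _ hb]
    rw [h5]
    linarith
  have h6 := h1 h3
  rw [Real.dist_eq] at h6
  change |G (cl z) / B - G (cl z') / B| ≤ ε
  rw [h2 z, h2 z', ← sub_div, abs_div, abs_of_pos hB, div_le_iff₀ hB]
  exact h6.le

lemma dil_pt' (u : ℕ → I1) (s : I1) (p n : ℕ) :
    cl (fun k => (s : ℝ) * FF u ((n : ℤ) + p * k)) = dil s p (pt u n) := by
  rw [← cl_eq (dil s p (pt u n))]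
  congr 1
  funext k
  change (s : ℝ) * FF u ((n : ℤ) + p * k) = (s : ℝ) * ((pt u n (p * k) : I1) : ℝ)
  rw [pt_val]

/-- the sign as an element of the interval -/
noncomputable def sI (t : ℝ) : I1 := ⟨sg t, by
  unfold sg
  split_ifs
  · norm_num
  · norm_num⟩

lemma sI_sq (t : ℝ) : ((sI t : I1) : ℝ) ^ 2 = 1 := by
  change (sg t) ^ 2 = 1
  unfold sg
  split_ifs
  · norm_num
  · norm_num

lemma FF_abs (u : ℕ → I1) (n : ℤ) : |FF u n| ≤ 1 := by
  unfold FF
  split_ifs
  · exact abs_le.2 (u _).2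
  · simp

theorem pf_RST : T_MW → T_RAR → T_RST := by
  intro hMW hRAR u hu hsum κ _ hq G H hG hloc ε Q hε
  obtain ⟨Y, Z, hYZ, hlog, hF⟩ := hq
  obtain ⟨M, hM, hE⟩ := hMW Y Z hYZ hlog
  obtain ⟨B, hB0, hB⟩ : ∃ B : ℝ, 0 < B ∧ ∀ x, |G x| ≤ B := by
    obtain ⟨B, hB⟩ := (isCompact_range hG).isBounded.exists_norm_le
    refine ⟨max B 1, lt_of_lt_of_le one_pos (le_max_right _ _), fun x => ?_⟩
    exact (hB (G x) ⟨x, rfl⟩).trans (le_max_left _ _)
  set Φ : (ℤ → ℝ) → ℝ := fun z => G (cl z) / B with hΦ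
  have hΦ1 : ∀ z, |Φ z| ≤ 1 := by
    intro z
    rw [hΦ, abs_div, abs_of_pos hB0]
    exact (div_le_one hB0).2 (hB _)
  have hA : M.E (fun ω => Φ (fun k => FF u (ω 0 + k))) = (∫ x, G x ∂κ) / B := by
    refine hE (fun n => Φ (fun k => FF u (n + k))) 1 _ (fun n => hΦ1 _) ?_
    have h1 := (hF ⟨G, hG⟩).div_const B
    refine h1.congr fun k => ?_
    rw [div_right_comm, sum_div]
    congr 1
    refine sum_congr rfl fun n _ => ?_
    change G (pt u n) / n / B = G (cl (fun k => FF u ((n : ℤ) + k))) / B / n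
    rw [id_pt, div_right_comm]
  have hBp : ∀ (p : ℕ) (s : I1), M.E (fun ω => Φ (fun k => (s : ℝ) * FF u (ω 0 + p * k))) =
      (∫ x, G (dil s p x) ∂κ) / B := by
    intro p s
    refine hE (fun n => Φ (fun k => (s : ℝ) * FF u (n + p * k))) 1 _ (fun n => hΦ1 _) ?_
    have h1 := (hF ⟨fun x => G (dil s p x), hG.comp (dil_cont s p)⟩).div_const B
    refine h1.congr fun k => ?_
    rw [div_right_comm, sum_div]
    congr 1
    refine sum_congr rfl fun n _ => ?_
    change G (dil s p (pt u n)) / n / B =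
      G (cl (fun k => (s : ℝ) * FF u ((n : ℤ) + p * k))) / B / n
    rw [dil_pt', div_right_comm]
  by_contra hcon
  push Not at hcon
  obtain ⟨δ, C, hδ, hC⟩ := hRAR M hM (FF u) (FF_abs u) (FF_mul u hu) H Φ hΦ1
    (uc_cl hG hloc B hB0) (ε / B) (by positivity)
  have key : ∀ S : Finset ℕ, (∀ p ∈ S, p.Prime ∧ 1 - δ ≤ |(u p : ℝ)| ∧ Q ≤ p) →
      ∑ p ∈ S, (1 : ℝ) / p ≤ C := by
    intro S hS
    refine hC S fun p hp => ?_
    obtain ⟨hpp, hp0, hpQ⟩ := hS p hp
    refine ⟨hpp, by rw [FF_nat u p hpp.pos]; exact hp0, ?_⟩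
    have h1 := hBp p (sI (FF u p))
    have h2 : M.E (fun ω => Φ (fun k => sg (FF u p) * FF u (ω 0 + p * k))) =
      (∫ x, G (dil (sI (FF u p)) p x) ∂κ) / B := h1
    rw [hA, h2, ← sub_div, abs_div, abs_of_pos hB0]
    exact (div_lt_div_iff_of_pos_right hB0).2 (hcon p hpQ _ (sI_sq _))
  set t : ℕ → ℝ := fun p => if p.Prime then (1 - |(u p : ℝ)|) / p else 0 with ht
  have ht0 : ∀ p, 0 ≤ t p := by
    intro p
    change (0 : ℝ) ≤ if p.Prime then (1 - |(u p : ℝ)|) / p else 0
    split_ifs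
    · have := abs_le.2 (u p).2
      exact div_nonneg (by linarith) (Nat.cast_nonneg _)
    · exact le_rfl
  refine not_summable_one_div_on_primes ?_
  refine summable_of_sum_le (c := (Q : ℝ) + C + (∑' p, t p) / δ) ?_ ?_
  · intro p
    exact Set.indicator_nonneg (fun n _ => by positivity) p
  · intro T
    have h1 : ∀ p ∈ T, Set.indicator {p : ℕ | p.Prime} (fun n : ℕ => (1 : ℝ) / n) p ≤
        ((if p < Q then (1 : ℝ) else 0) +
        (if p.Prime ∧ 1 - δ ≤ |(u p : ℝ)| ∧ Q ≤ p then (1 : ℝ) / p else 0)) + t p / δ := by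
      intro p _
      have h3 : (0 : ℝ) ≤ if p.Prime ∧ 1 - δ ≤ |(u p : ℝ)| ∧ Q ≤ p then (1 : ℝ) / p else 0 := by
        split_ifs
        · positivity
        · exact le_rfl
      have h4 : (0 : ℝ) ≤ if p < Q then (1 : ℝ) else 0 := by
        split_ifs
        · exact zero_le_one
        · exact le_rfl
      have h5 : 0 ≤ t p / δ := div_nonneg (ht0 p) hδ.le
      by_cases hp : p.Prime
      · rw [Set.indicator_of_mem (show p ∈ {p : ℕ | p.Prime} from hp)]
        have hp1 : (1 : ℝ) ≤ p := by exact_mod_cast hp.one_lt.le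
        by_cases hQ : p < Q
        · rw [if_pos hQ]
          have h2 : (1 : ℝ) / p ≤ 1 := (div_le_one (by linarith)).2 hp1
          linarith
        · by_cases hd : 1 - δ ≤ |(u p : ℝ)|
          · rw [if_neg hQ, if_pos ⟨hp, hd, not_lt.1 hQ⟩]
            linarith
          · have h6 : (1 : ℝ) / p ≤ t p / δ := by
              rw [le_div_iff₀ hδ]
              change 1 / (p : ℝ) * δ ≤ if p.Prime then (1 - |(u p : ℝ)|) / p else 0
              rw [if_pos hp, one_div, inv_mul_eq_div]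
              refine div_le_div_of_nonneg_right ?_ (by linarith)
              linarith [not_le.1 hd]
            linarith
      · rw [Set.indicator_of_notMem (show p ∉ {p : ℕ | p.Prime} from hp)]
        linarith
    refine (sum_le_sum h1).trans ?_
    rw [sum_add_distrib, sum_add_distrib]
    refine add_le_add (add_le_add ?_ ?_) ?_
    · rw [← sum_filter, sum_const, nsmul_eq_mul, mul_one]
      have h2 : (T.filter fun p => p < Q) ⊆ range Q := by
        intro p hp
        rw [mem_filter] at hp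
        exact mem_range.2 hp.2
      have h3 := card_le_card h2
      rw [card_range] at h3
      exact_mod_cast h3
    · rw [← sum_filter]
      refine key _ fun p hp => ?_
      rw [mem_filter] at hp
      exact hp.2
    · rw [← sum_div]
      exact div_le_div_of_nonneg_right (hsum.sum_le_tsum T (fun p _ => ht0 p)) hδ.le

end Pool.Agent.H49.RPR
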